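import Pool.Agent.Run7.h933.RP.Core

/-!
# Pieces and connected components
-/

set_option autoImplicit false

open Finset Matrix Pool.Agent.H283R2.DR

namespace Run7.h933.RP

variable {V : Type*}

/-- The number of the connected components of `G[U ∖ C]` is bounded by the size of families of
pieces attached to `C`. -/
theorem comp_card_le [Fintype V] [DecidableEq V] {G : SimpleGraph V} {U C : Finset V} {n : ℕ}
    (h : ∀ F, Pieces G U C F → F.card ≤ n) :
    Nat.card (G.induce (↑(U \ C) : Set V)).ConnectedComponent ≤ n := by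
  classical
  set H := G.induce (↑(U \ C) : Set V) with hH
  let f : H.ConnectedComponent → Finset V := fun K =>
    Finset.univ.filter fun v => ∃ hv : v ∈ (↑(U \ C) : Set V), H.connectedComponentMk ⟨v, hv⟩ = K
  have hmem : ∀ K v, v ∈ f K ↔ ∃ hv : v ∈ (↑(U \ C) : Set V), H.connectedComponentMk ⟨v, hv⟩ = K := by
    intro K v
    simp [f]
  have hne : ∀ K, (f K).Nonempty := by
    intro K
    induction K using SimpleGraph.ConnectedComponent.ind with
    | h v => exact ⟨v.1, (hmem _ _).2 ⟨v.2, rfl⟩⟩
  have hinj : Function.Injective f := by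
    intro K K' hKK
    obtain ⟨v, hv⟩ := hne K
    obtain ⟨h1, h2⟩ := (hmem K v).1 hv
    rw [hKK] at hv
    obtain ⟨h3, h4⟩ := (hmem K' v).1 hv
    rw [← h2, ← h4]
  have hP : Pieces G U C (Finset.univ.image f) := by
    refine ⟨?_, ?_, ?_, ?_, ?_⟩
    · intro D hD
      obtain ⟨K, -, rfl⟩ := Finset.mem_image.1 hD
      exact hne K
    · intro D hD x hx
      obtain ⟨K, -, rfl⟩ := Finset.mem_image.1 hD
      obtain ⟨h1, -⟩ := (hmem K x).1 hx
      exact (Finset.mem_sdiff.1 (by exact_mod_cast h1)).1
    · intro D hD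
      obtain ⟨K, -, rfl⟩ := Finset.mem_image.1 hD
      rw [Finset.disjoint_left]
      intro x hx hxC
      obtain ⟨h1, -⟩ := (hmem K x).1 hx
      have h2 : x ∈ U \ C := by exact_mod_cast h1
      exact (Finset.mem_sdiff.1 h2).2 hxC
    · intro D hD D' hD' hne'
      obtain ⟨K, -, rfl⟩ := Finset.mem_image.1 hD
      obtain ⟨K', -, rfl⟩ := Finset.mem_image.1 hD'
      rw [Finset.disjoint_left]
      intro x hx hx'
      obtain ⟨h1, h2⟩ := (hmem K x).1 hx
      obtain ⟨h3, h4⟩ := (hmem K' x).1 hx'
      exact hne' (by rw [← h2, ← h4])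
    · intro D hD x hx y hy hxy
      obtain ⟨K, -, rfl⟩ := Finset.mem_image.1 hD
      obtain ⟨h1, h2⟩ := (hmem K x).1 hx
      by_cases hyC : y ∈ C
      · exact Or.inl hyC
      · right
        have hy' : y ∈ (↑(U \ C) : Set V) := by
          have : y ∈ U \ C := Finset.mem_sdiff.2 ⟨hy, hyC⟩
          exact_mod_cast this
        refine (hmem K y).2 ⟨hy', ?_⟩
        rw [← h2]
        apply SimpleGraph.ConnectedComponent.sound
        have hadj : H.Adj ⟨y, hy'⟩ ⟨x, h1⟩ := by
          rw [hH, SimpleGraph.induce_adj]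
          exact hxy.symm
        exact hadj.reachable
  have h5 := h _ hP
  rw [Finset.card_image_of_injective _ hinj, Finset.card_univ] at h5
  rw [Nat.card_eq_fintype_card]
  exact h5

end Run7.h933.RP
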