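import Mathlib
import Pool.Agent.H283R2.DR.Glue
import Pool.Agent.H283R2.DR.TaskG
import Pool.Agent.H283R2.DR.GenExists

/-!
# Rigid subgraphs that stay almost connected

If a framework is infinitesimally rigid in `ℝ^d` and many pieces of it are attached to the same set
`C` of vertices, more than `d |C|` of them, then one of the pieces can be deleted. Hence in a
generically rigid graph any two vertices are contained in a rigid subgraph whose number of pieces,
after deletion of any set `C` of vertices, is at most `d |C| + 2`; in a graph without long paths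
such a subgraph is small.
-/

set_option autoImplicit false

open Finset Matrix Pool.Agent.H283R2.DR

namespace Run7.h933.RP

variable {V : Type*}

/-- `F` is a family of pieces of `G[W]` attached to `C`: disjoint nonempty subsets of `W ∖ C`, all
the edges of `G[W]` leaving one of them lead to `C`. -/
structure Pieces (G : SimpleGraph V) (W C : Finset V) (F : Finset (Finset V)) : Prop where
  ne : ∀ D ∈ F, D.Nonempty
  sub : ∀ D ∈ F, D ⊆ W
  out : ∀ D ∈ F, Disjoint D C
  disj : ∀ D ∈ F, ∀ D' ∈ F, D ≠ D' → Disjoint D D'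
  closed : ∀ D ∈ F, ∀ x ∈ D, ∀ y ∈ W, G.Adj x y → y ∈ C ∨ y ∈ D

/-- Among more than `d |C|` pieces attached to `C` one can be deleted. -/
theorem delete_piece [DecidableEq V] {d : ℕ} {G : SimpleGraph V} {p : V → Fin d → ℝ}
    {W C : Finset V} {F : Finset (Finset V)} (hP : Pieces G W C F) (hCW : C ⊆ W)
    (hr : RigidOn G (↑W : Set V) p) (hF : d * C.card < F.card) :
    ∃ D ∈ F, RigidOn G (↑(W \ D) : Set V) p := by
  by_contra hcon
  push Not at hcon
  have hq : ∀ D : F, ∃ q : V → Fin d → ℝ,
      (∀ u ∈ W \ D.1, ∀ v ∈ W \ D.1, G.Adj u v → (p u - p v) ⬝ᵥ (q u - q v) = 0) ∧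
      ¬ ∃ (A : Matrix (Fin d) (Fin d) ℝ) (b : Fin d → ℝ), Aᵀ = -A ∧
        ∀ v ∈ W \ D.1, q v = A *ᵥ p v + b := by
    intro D
    by_contra h
    push Not at h
    refine hcon D.1 D.2 fun q hq => ?_
    obtain ⟨A, b, hA, hb⟩ := h q (fun u hu v hv => hq u (by exact_mod_cast hu) v
      (by exact_mod_cast hv))
    exact ⟨A, b, hA, fun v hv => hb v (by exact_mod_cast hv)⟩
  choose q hq1 hq2 using hq
  have hli : LinearIndependent ℝ (fun D : F => fun c : C => q D c.1) := by
    rw [Fintype.linearIndependent_iff]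
    intro g hg D₀
    by_contra hne
    have hrel : ∀ c ∈ C, ∑ D : F, g D • q D c = 0 := by
      intro c hc
      have h := congrFun hg ⟨c, hc⟩
      simpa using h
    set P : V → Fin d → ℝ := fun v => -((g D₀)⁻¹ • ∑ D ∈ univ.erase D₀, g D • q D v) with hPdef
    have hPC : ∀ c ∈ C, P c = q D₀ c := by
      intro c hc
      have h1 := hrel c hc
      rw [← Finset.add_sum_erase _ _ (Finset.mem_univ D₀)] at h1
      have h2 : ∑ D ∈ univ.erase D₀, g D • q D c = -(g D₀ • q D₀ c) := by
        rw [eq_neg_iff_add_eq_zero, add_comm]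
        exact h1
      simp only [hPdef]
      rw [h2, smul_neg, neg_neg, smul_smul, inv_mul_cancel₀ hne, one_smul]
    have hmem : ∀ u, u ∈ D₀.1 ∨ u ∈ C → ∀ D ∈ (univ.erase D₀ : Finset F), u ∈ W \ D.1 := by
      intro u hu D hD
      have hDD : D ≠ D₀ := Finset.ne_of_mem_erase hD
      rw [Finset.mem_sdiff]
      rcases hu with hu | hu
      · refine ⟨hP.sub _ D₀.2 hu, fun h => ?_⟩
        have hdis := hP.disj D.1 D.2 D₀.1 D₀.2 (fun h => hDD (Subtype.ext h))
        exact (Finset.disjoint_left.1 hdis) h hu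
      · exact ⟨hCW hu, fun h => (Finset.disjoint_left.1 (hP.out D.1 D.2)) h hu⟩
    have hPm : ∀ u, (u ∈ D₀.1 ∨ u ∈ C) → ∀ v, (v ∈ D₀.1 ∨ v ∈ C) → G.Adj u v →
        (p u - p v) ⬝ᵥ (P u - P v) = 0 := by
      intro u hu v hv huv
      have h1 : P u - P v = -((g D₀)⁻¹ • ∑ D ∈ univ.erase D₀, g D • (q D u - q D v)) := by
        simp only [hPdef, smul_sub, Finset.sum_sub_distrib]
        abel
      rw [h1, dotProduct_neg, dotProduct_smul, dotProduct_sum, Finset.sum_eq_zero, smul_zero,
        neg_zero]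
      intro D hD
      rw [dotProduct_smul, hq1 D u (hmem u hu D hD) v (hmem v hv D hD) huv, smul_zero]
    set Q : V → Fin d → ℝ := fun v => if v ∈ D₀.1 then P v else q D₀ v with hQ
    have hQ1 : ∀ v, (v ∈ D₀.1 ∨ v ∈ C) → Q v = P v := by
      intro v hv
      by_cases h : v ∈ D₀.1
      · simp only [hQ, h, if_true]
      · simp only [hQ, h, if_false]
        exact (hPC v (hv.resolve_left h)).symm
    have hQ2 : ∀ v, v ∉ D₀.1 → Q v = q D₀ v := by
      intro v hv
      simp only [hQ, hv, if_false]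
    obtain ⟨A, b, hA, hb⟩ := hr Q (by
      intro u hu v hv huv
      have hu' : u ∈ W := by exact_mod_cast hu
      have hv' : v ∈ W := by exact_mod_cast hv
      by_cases h1 : u ∈ D₀.1
      · have h2 : v ∈ D₀.1 ∨ v ∈ C := (hP.closed _ D₀.2 u h1 v hv' huv).symm
        rw [hQ1 u (Or.inl h1), hQ1 v h2]
        exact hPm u (Or.inl h1) v h2 huv
      · by_cases h3 : v ∈ D₀.1
        · have h2 : u ∈ D₀.1 ∨ u ∈ C := (hP.closed _ D₀.2 v h3 u hu' huv.symm).symm
          rw [hQ1 v (Or.inl h3), hQ1 u h2]
          exact hPm u h2 v (Or.inl h3) huv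
        · rw [hQ2 u h1, hQ2 v h3]
          exact hq1 D₀ u (Finset.mem_sdiff.2 ⟨hu', h1⟩) v (Finset.mem_sdiff.2 ⟨hv', h3⟩) huv)
    refine hq2 D₀ ⟨A, b, hA, fun v hv => ?_⟩
    have hv' := Finset.mem_sdiff.1 hv
    rw [← hQ2 v hv'.2]
    exact hb v (by exact_mod_cast hv'.1)
  have hcard := hli.fintype_card_le_finrank
  have hfin : Module.finrank ℝ (C → Fin d → ℝ) = C.card * d := by
    rw [Module.finrank_pi_fintype]
    simp
  rw [hfin, Fintype.card_coe, mul_comm] at hcard
  omega

/-- Any two vertices of a rigid framework lie in a rigid subframework which has at most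
`d |C| + 2` pieces attached to `C`, for every `C`. -/
theorem exists_tough [Fintype V] [DecidableEq V] {d : ℕ} {G : SimpleGraph V} {p : V → Fin d → ℝ}
    (hr : RigidOn G Set.univ p) (u v : V) :
    ∃ U : Finset V, u ∈ U ∧ v ∈ U ∧ RigidOn G (↑U : Set V) p ∧
      ∀ C ⊆ U, ∀ F, Pieces G U C F → F.card ≤ d * C.card + 2 := by
  classical
  obtain ⟨U, hU, hmin⟩ := Finset.exists_min_image
    ((Finset.univ : Finset (Finset V)).filter fun U : Finset V =>
      u ∈ U ∧ v ∈ U ∧ RigidOn G (↑U : Set V) p)
    (fun U : Finset V => U.card) ⟨Finset.univ, by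
      rw [Finset.mem_filter]
      exact ⟨Finset.mem_univ _, Finset.mem_univ _, Finset.mem_univ _, by
        rw [Finset.coe_univ]
        exact hr⟩⟩
  rw [Finset.mem_filter] at hU
  obtain ⟨-, hu, hv, hUr⟩ := hU
  refine ⟨U, hu, hv, hUr, fun C hC F hF => ?_⟩
  by_contra hcon
  push Not at hcon
  set F' := F.filter fun D => u ∉ D ∧ v ∉ D with hF'
  have h1 : ∀ w : V, (F.filter fun D => w ∈ D).card ≤ 1 := by
    intro w
    rw [Finset.card_le_one]
    intro D hD D' hD'
    rw [Finset.mem_filter] at hD hD'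
    by_contra hne
    exact (Finset.disjoint_left.1 (hF.disj D hD.1 D' hD'.1 hne)) hD.2 hD'.2
  have h2 : F ⊆ F' ∪ ((F.filter fun D => u ∈ D) ∪ (F.filter fun D => v ∈ D)) := by
    intro D hD
    simp only [hF', Finset.mem_union, Finset.mem_filter]
    tauto
  have h3 : F.card ≤ F'.card + 2 := by
    have := Finset.card_le_card h2
    have h4 := Finset.card_union_le F' ((F.filter fun D => u ∈ D) ∪ (F.filter fun D => v ∈ D))
    have h5 := Finset.card_union_le (F.filter fun D => u ∈ D) (F.filter fun D => v ∈ D)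
    have h6 := h1 u
    have h7 := h1 v
    omega
  have hP' : Pieces G U C F' :=
    ⟨fun D hD => hF.ne D (Finset.mem_filter.1 hD).1, fun D hD => hF.sub D (Finset.mem_filter.1 hD).1,
      fun D hD => hF.out D (Finset.mem_filter.1 hD).1,
      fun D hD D' hD' => hF.disj D (Finset.mem_filter.1 hD).1 D' (Finset.mem_filter.1 hD').1,
      fun D hD => hF.closed D (Finset.mem_filter.1 hD).1⟩
  obtain ⟨D, hD, hDr⟩ := delete_piece hP' hC hUr (by omega)
  have hDF := Finset.mem_filter.1 hD
  have h8 := hmin (U \ D) (by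
    rw [Finset.mem_filter]
    exact ⟨Finset.mem_univ _, Finset.mem_sdiff.2 ⟨hu, hDF.2.1⟩, Finset.mem_sdiff.2 ⟨hv, hDF.2.2⟩,
      hDr⟩)
  have h9 : (U \ D).card < U.card := by
    apply Finset.card_lt_card
    refine ⟨Finset.sdiff_subset, fun hsub => ?_⟩
    obtain ⟨x, hx⟩ := hF.ne D hDF.1
    exact (Finset.mem_sdiff.1 (hsub (hF.sub D hDF.1 hx))).2 hx
  omega

/-! ### Pieces of a set -/

/-- adjacency inside a set -/
def Rl (G : SimpleGraph V) (S : Finset V) (a b : V) : Prop := a ∈ S ∧ b ∈ S ∧ G.Adj a b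

theorem Rl.symm {G : SimpleGraph V} {S : Finset V} {a b : V} (h : Rl G S a b) : Rl G S b a :=
  ⟨h.2.1, h.1, h.2.2.symm⟩

open Classical in
/-- the piece of `x` in `S` -/
noncomputable def piece (G : SimpleGraph V) (S : Finset V) (x : V) : Finset V :=
  S.filter fun y => Relation.ReflTransGen (Rl G S) x y

theorem mem_piece {G : SimpleGraph V} {S : Finset V} {x y : V} :
    y ∈ piece G S x ↔ y ∈ S ∧ Relation.ReflTransGen (Rl G S) x y := by
  classical
  unfold piece
  rw [Finset.mem_filter]

theorem piece_subset (G : SimpleGraph V) (S : Finset V) (x : V) : piece G S x ⊆ S :=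
  fun _ hy => (mem_piece.1 hy).1

theorem self_mem_piece {G : SimpleGraph V} {S : Finset V} {x : V} (hx : x ∈ S) :
    x ∈ piece G S x := mem_piece.2 ⟨hx, Relation.ReflTransGen.refl⟩

theorem piece_closed {G : SimpleGraph V} {S : Finset V} {x y z : V} (hy : y ∈ piece G S x)
    (hz : z ∈ S) (h : G.Adj y z) : z ∈ piece G S x := by
  rw [mem_piece] at hy ⊢
  exact ⟨hz, hy.2.tail ⟨hy.1, hz, h⟩⟩

theorem rtg_symm {G : SimpleGraph V} {S : Finset V} {x y : V}
    (h : Relation.ReflTransGen (Rl G S) x y) : Relation.ReflTransGen (Rl G S) y x := by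
  induction h with
  | refl => exact Relation.ReflTransGen.refl
  | tail _ hbc ih => exact ih.head hbc.symm

theorem piece_eq {G : SimpleGraph V} {S : Finset V} {x x' w : V} (h : w ∈ piece G S x)
    (h' : w ∈ piece G S x') : piece G S x = piece G S x' := by
  rw [mem_piece] at h h'
  ext y
  rw [mem_piece, mem_piece]
  constructor
  · rintro ⟨h1, h2⟩
    exact ⟨h1, h'.2.trans ((rtg_symm h.2).trans h2)⟩
  · rintro ⟨h1, h2⟩
    exact ⟨h1, h.2.trans ((rtg_symm h'.2).trans h2)⟩

theorem reach_before [DecidableEq V] {G : SimpleGraph V} {S : Finset V} {x y : V}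
    (h : Relation.ReflTransGen (Rl G S) x y) : x ≠ y → x ∈ S →
    ∃ z ∈ S.erase y, Relation.ReflTransGen (Rl G (S.erase y)) x z ∧ G.Adj z y := by
  induction h using Relation.ReflTransGen.head_induction_on with
  | refl => exact fun h => absurd rfl h
  | head hac hcy ih =>
    rename_i a c
    intro hay haS
    by_cases hc : c = y
    · subst hc
      exact ⟨a, Finset.mem_erase.2 ⟨hay, haS⟩, Relation.ReflTransGen.refl, hac.2.2⟩
    · obtain ⟨z, hz, h1, h2⟩ := ih hc hac.2.1
      exact ⟨z, hz, h1.head ⟨Finset.mem_erase.2 ⟨hay, haS⟩, Finset.mem_erase.2 ⟨hc, hac.2.1⟩,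
        hac.2.2⟩, h2⟩

/-- The pieces of `W ∖ C` form a family of pieces. -/
theorem pieces_family [DecidableEq V] {G : SimpleGraph V} {W C S : Finset V} (hS : S = W \ C)
    (Z : Finset V) (hZ : Z ⊆ S) : Pieces G W C (Z.image (piece G S)) := by
  refine ⟨?_, ?_, ?_, ?_, ?_⟩
  · intro D hD
    obtain ⟨z, hz, rfl⟩ := Finset.mem_image.1 hD
    exact ⟨z, self_mem_piece (hZ hz)⟩
  · intro D hD
    obtain ⟨z, hz, rfl⟩ := Finset.mem_image.1 hD
    refine (piece_subset G S z).trans ?_
    rw [hS]
    exact Finset.sdiff_subset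
  · intro D hD
    obtain ⟨z, hz, rfl⟩ := Finset.mem_image.1 hD
    rw [Finset.disjoint_left]
    intro a ha haC
    have := piece_subset G S z ha
    rw [hS, Finset.mem_sdiff] at this
    exact this.2 haC
  · intro D hD D' hD' hne
    obtain ⟨z, hz, rfl⟩ := Finset.mem_image.1 hD
    obtain ⟨z', hz', rfl⟩ := Finset.mem_image.1 hD'
    rw [Finset.disjoint_left]
    intro a ha ha'
    exact hne (piece_eq ha ha')
  · intro D hD x hx y hy hxy
    obtain ⟨z, hz, rfl⟩ := Finset.mem_image.1 hD
    by_cases hyC : y ∈ C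
    · exact Or.inl hyC
    · right
      exact piece_closed hx (by rw [hS, Finset.mem_sdiff]; exact ⟨hy, hyC⟩) hxy

/-- the bound for the size of a piece -/
def gb (B : ℕ) : ℕ → ℕ
  | 0 => 0
  | j + 1 => 1 + B * gb B j

theorem gb_lt (B : ℕ) (hB : 2 ≤ B) (j : ℕ) : gb B j + 1 ≤ B ^ j := by
  induction j with
  | zero => simp [gb]
  | succ j ih =>
    have h1 : B * (gb B j + 1) ≤ B * B ^ j := Nat.mul_le_mul_left B ih
    simp only [gb]
    rw [pow_succ, mul_comm (B ^ j) B]
    have h2 : B * (gb B j + 1) = B * gb B j + B := by ring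
    omega

theorem piece_card_le [DecidableEq V] {G : SimpleGraph V} {d m : ℕ} {W : Finset V}
    (hW : ∀ C ⊆ W, ∀ F, Pieces G W C F → F.card ≤ d * C.card + 2)
    (hpath : ∀ l : List V, l.Nodup → l.IsChain G.Adj → l.length < m) :
    ∀ (j : ℕ) (l : List V), l.Nodup → (∀ c ∈ l, c ∈ W) → m ≤ l.length + 1 + j →
      ∀ x y, y ∈ piece G (W \ l.toFinset) x → (y :: l).IsChain G.Adj →
      (piece G (W \ l.toFinset) x).card ≤ gb (d * m + 2) j := by
  intro j
  induction j with
  | zero =>
    intro l hl hlW hm x y hy hch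
    exfalso
    have h1 : y ∉ l := by
      have := (Finset.mem_sdiff.1 (piece_subset _ _ _ hy)).2
      simpa using this
    have h2 := hpath (y :: l) (List.nodup_cons.2 ⟨h1, hl⟩) hch
    simp only [List.length_cons] at h2
    omega
  | succ j ih =>
    intro l hl hlW hm x y hy hch
    have h1 : y ∉ l := by
      have := (Finset.mem_sdiff.1 (piece_subset _ _ _ hy)).2
      simpa using this
    have hyW : y ∈ W := (Finset.mem_sdiff.1 (piece_subset _ _ _ hy)).1
    have hnd : (y :: l).Nodup := List.nodup_cons.2 ⟨h1, hl⟩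
    have hlen := hpath (y :: l) hnd hch
    set S := W \ l.toFinset with hS
    have hS2 : W \ (y :: l).toFinset = S.erase y := by
      ext a
      simp only [hS, List.toFinset_cons, Finset.mem_sdiff, Finset.mem_insert, Finset.mem_erase,
        not_or]
      tauto
    set D := piece G S x with hD
    set S₂ := W \ (y :: l).toFinset with hS₂
    have hDS : D.erase y ⊆ S₂ := by
      rw [hS2]
      exact Finset.erase_subset_erase _ (piece_subset _ _ _)
    set F := (D.erase y).image (piece G S₂) with hF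
    have hFP : Pieces G W (y :: l).toFinset F := pieces_family rfl _ hDS
    have hFc : F.card ≤ d * m + 2 := by
      refine (hW _ ?_ F hFP).trans ?_
      · intro c hc
        rw [List.mem_toFinset] at hc
        rcases List.mem_cons.1 hc with rfl | hc
        · exact hyW
        · exact hlW c hc
      · have h2 : (y :: l).toFinset.card ≤ m := by
          rw [List.toFinset_card_of_nodup hnd]
          exact hlen.le
        have := Nat.mul_le_mul_left d h2
        omega
    have hPc : ∀ P ∈ F, P.card ≤ gb (d * m + 2) j := by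
      intro P hPF
      obtain ⟨z, hz, rfl⟩ := Finset.mem_image.1 hPF
      have hz' := Finset.mem_erase.1 hz
      have hxz := (mem_piece.1 hz'.2).2
      have hxy := (mem_piece.1 hy).2
      have hzy : Relation.ReflTransGen (Rl G S) z y := (rtg_symm hxz).trans hxy
      obtain ⟨w, hw, h2, h3⟩ := reach_before hzy hz'.1 (piece_subset _ _ _ hz'.2)
      refine ih (y :: l) hnd ?_ ?_ z w ?_ ?_
      · intro c hc
        rcases List.mem_cons.1 hc with rfl | hc
        · exact hyW
        · exact hlW c hc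
      · simp only [List.length_cons]
        omega
      · rw [mem_piece, ← hS₂, hS2]
        exact ⟨hw, h2⟩
      · exact List.isChain_cons_cons.2 ⟨h3, hch⟩
    have hcov : D.erase y ⊆ F.biUnion id := by
      intro z hz
      rw [Finset.mem_biUnion]
      exact ⟨piece G S₂ z, Finset.mem_image_of_mem _ hz, self_mem_piece (hDS hz)⟩
    have h4 : (D.erase y).card ≤ F.card * gb (d * m + 2) j :=
      (Finset.card_le_card hcov).trans (Finset.card_biUnion_le_card_mul _ _ _ hPc)
    have h5 : D.card ≤ (D.erase y).card + 1 := by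
      have := Finset.pred_card_le_card_erase (s := D) (a := y)
      omega
    have h6 : F.card * gb (d * m + 2) j ≤ (d * m + 2) * gb (d * m + 2) j :=
      Nat.mul_le_mul_right _ hFc
    simp only [gb]
    omega

theorem card_le_of_tough [DecidableEq V] {G : SimpleGraph V} {d m : ℕ} {W : Finset V}
    (hW : ∀ C ⊆ W, ∀ F, Pieces G W C F → F.card ≤ d * C.card + 2)
    (hpath : ∀ l : List V, l.Nodup → l.IsChain G.Adj → l.length < m) :
    W.card ≤ (d * m + 2) ^ m := by
  have hm : 0 < m := by
    have := hpath [] List.nodup_nil List.isChain_nil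
    simpa using this
  obtain ⟨n, rfl⟩ : ∃ n, m = n + 1 := ⟨m - 1, by omega⟩
  set F := W.image (piece G W) with hF
  have hFP : Pieces G W ∅ F := pieces_family (by simp) W subset_rfl
  have hFc : F.card ≤ 2 := by
    have := hW ∅ (Finset.empty_subset _) F hFP
    simpa using this
  have hPc : ∀ P ∈ F, P.card ≤ gb (d * (n + 1) + 2) n := by
    intro P hPF
    obtain ⟨z, hz, rfl⟩ := Finset.mem_image.1 hPF
    have h := piece_card_le hW hpath n [] List.nodup_nil (by simp) (by simp) z z
      (by simpa using self_mem_piece hz) (List.isChain_singleton z)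
    simpa using h
  have hcov : W ⊆ F.biUnion id := by
    intro z hz
    rw [Finset.mem_biUnion]
    exact ⟨piece G W z, Finset.mem_image_of_mem _ hz, self_mem_piece hz⟩
  have h4 : W.card ≤ F.card * gb (d * (n + 1) + 2) n :=
    (Finset.card_le_card hcov).trans (Finset.card_biUnion_le_card_mul _ _ _ hPc)
  have h5 := gb_lt (d * (n + 1) + 2) (by omega) n
  have h6 : F.card * gb (d * (n + 1) + 2) n ≤ 2 * (d * (n + 1) + 2) ^ n :=
    Nat.mul_le_mul hFc (by omega)
  have h7 : 2 * (d * (n + 1) + 2) ^ n ≤ (d * (n + 1) + 2) ^ (n + 1) := by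
    rw [pow_succ, mul_comm]
    exact Nat.mul_le_mul_left _ (by omega)
  omega

/-- A graph on a finite set without a path on `m` vertices is generically rigid in `ℝ^d` if and
only if any two vertices lie in a set of at most `(d m + 2)^m` vertices which induces a generically
rigid graph. -/
theorem local_iff [Fintype V] {d m : ℕ} {G : SimpleGraph V}
    (hpath : ∀ l : List V, l.Nodup → l.IsChain G.Adj → l.length < m) :
    GenRigid d G ↔ ∀ u v : V, ∃ U : Finset V, u ∈ U ∧ v ∈ U ∧ U.card ≤ (d * m + 2) ^ m ∧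
      GenRigid d (G.induce (↑U : Set V)) := by
  classical
  obtain ⟨p, hp⟩ := exists_gen V d
  constructor
  · intro hG u v
    obtain ⟨U, hu, hv, hU, hW⟩ := exists_tough ((hp.genRigid_iff G).1 hG) u v
    exact ⟨U, hu, hv, card_le_of_tough hW hpath, (hp.genRigid_induce_iff G _).2 hU⟩
  · intro h
    rw [hp.genRigid_iff G]
    apply rigid_of_pairs hp
    intro u v
    obtain ⟨U, h1, h2, -, h4⟩ := h u v
    exact ⟨U, h1, h2, (hp.genRigid_induce_iff G _).1 h4⟩

/-- paths as lists -/
theorem list_of_free {m : ℕ} {G : SimpleGraph V} (h : (SimpleGraph.pathGraph m).Free G) :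
    ∀ l : List V, l.Nodup → l.IsChain G.Adj → l.length < m := by
  intro l hl hc
  by_contra hcon
  push Not at hcon
  apply h
  refine ⟨⟨⟨fun i => l[i.1]'(by omega), ?_⟩, ?_⟩⟩
  · intro a b hab
    rw [SimpleGraph.pathGraph_adj] at hab
    rw [List.isChain_iff_getElem] at hc
    rcases hab with hab | hab
    · have := hc a.1 (by omega)
      simpa [hab] using this
    · have := hc b.1 (by omega)
      simpa [hab] using this.symm
  · intro a b hab
    have := (List.Nodup.getElem_inj_iff hl).1 hab
    exact Fin.ext this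

end Run7.h933.RP
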