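import Pool.Agent.Run7.h933.RP.Comp
import Pool.Agent.H789R5.RF.Rank

/-!
# Locality of the generic rigidity matroid on graphs without long paths
-/

set_option autoImplicit false

open Finset Matrix Pool.Agent.H283R2.DR Pool.Agent.H789R5

namespace Run7.h933.RP

section

variable {V : Type*}

/-- The length of the pair `u v` is preserved by all infinitesimal motions of the part of `G` in
`W`. -/
def Linked {d : ℕ} (G : SimpleGraph V) (W : Finset V) (p : V → Fin d → ℝ) (u v : V) : Prop :=
  ∀ q : V → Fin d → ℝ, (∀ a ∈ W, ∀ b ∈ W, G.Adj a b → (p a - p b) ⬝ᵥ (q a - q b) = 0) →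
    (p u - p v) ⬝ᵥ (q u - q v) = 0

/-- Among more than `d |C|` pieces attached to `C` one can be deleted. -/
theorem delete_linked [DecidableEq V] {d : ℕ} {G : SimpleGraph V} {p : V → Fin d → ℝ}
    {W C : Finset V} {F : Finset (Finset V)} (hP : Pieces G W C F) (hCW : C ⊆ W) {u v : V}
    (huF : ∀ D ∈ F, u ∉ D ∧ v ∉ D) (hr : Linked G W p u v) (hF : d * C.card < F.card) :
    ∃ D ∈ F, Linked G (W \ D) p u v := by
  by_contra hcon
  push Not at hcon
  have hq : ∀ D : F, ∃ q : V → Fin d → ℝ,
      (∀ a ∈ W \ D.1, ∀ b ∈ W \ D.1, G.Adj a b → (p a - p b) ⬝ᵥ (q a - q b) = 0) ∧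
      (p u - p v) ⬝ᵥ (q u - q v) ≠ 0 := by
    intro D
    by_contra h
    push Not at h
    exact hcon D.1 D.2 fun q hq => h q hq
  choose q hq1 hq2 using hq
  have hli : LinearIndependent ℝ (fun D : F => fun c : C => q D c.1) := by
    rw [Fintype.linearIndependent_iff]
    intro g hg D₀
    by_contra hne
    have hrel : ∀ c ∈ C, ∑ D : F, g D • q D c = 0 := by
      intro c hc
      have h := congrFun hg ⟨c, hc⟩
      simpa using h
    set P : V → Fin d → ℝ := fun v => -((g D₀)⁻¹ • ∑ D ∈ univ.erase D₀, g D • q D v) with hPdef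
    have hPC : ∀ c ∈ C, P c = q D₀ c := by
      intro c hc
      have h1 := hrel c hc
      rw [← Finset.add_sum_erase _ _ (Finset.mem_univ D₀)] at h1
      have h2 : ∑ D ∈ univ.erase D₀, g D • q D c = -(g D₀ • q D₀ c) := by
        rw [eq_neg_iff_add_eq_zero, add_comm]
        exact h1
      simp only [hPdef]
      rw [h2, smul_neg, neg_neg, smul_smul, inv_mul_cancel₀ hne, one_smul]
    have hmem : ∀ a, a ∈ D₀.1 ∨ a ∈ C → ∀ D ∈ (univ.erase D₀ : Finset F), a ∈ W \ D.1 := by
      intro a ha D hD
      have hDD : D ≠ D₀ := Finset.ne_of_mem_erase hD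
      rw [Finset.mem_sdiff]
      rcases ha with ha | ha
      · refine ⟨hP.sub _ D₀.2 ha, fun h => ?_⟩
        have hdis := hP.disj D.1 D.2 D₀.1 D₀.2 (fun h => hDD (Subtype.ext h))
        exact (Finset.disjoint_left.1 hdis) h ha
      · exact ⟨hCW ha, fun h => (Finset.disjoint_left.1 (hP.out D.1 D.2)) h ha⟩
    have hPm : ∀ a, (a ∈ D₀.1 ∨ a ∈ C) → ∀ b, (b ∈ D₀.1 ∨ b ∈ C) → G.Adj a b →
        (p a - p b) ⬝ᵥ (P a - P b) = 0 := by
      intro a ha b hb hab
      have h1 : P a - P b = -((g D₀)⁻¹ • ∑ D ∈ univ.erase D₀, g D • (q D a - q D b)) := by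
        simp only [hPdef, smul_sub, Finset.sum_sub_distrib]
        abel
      rw [h1, dotProduct_neg, dotProduct_smul, dotProduct_sum, Finset.sum_eq_zero, smul_zero,
        neg_zero]
      intro D hD
      rw [dotProduct_smul, hq1 D a (hmem a ha D hD) b (hmem b hb D hD) hab, smul_zero]
    set Q : V → Fin d → ℝ := fun v => if v ∈ D₀.1 then P v else q D₀ v with hQ
    have hQ1 : ∀ v, (v ∈ D₀.1 ∨ v ∈ C) → Q v = P v := by
      intro v hv
      by_cases h : v ∈ D₀.1
      · simp only [hQ, h, if_true]
      · simp only [hQ, h, if_false]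
        exact (hPC v (hv.resolve_left h)).symm
    have hQ2 : ∀ v, v ∉ D₀.1 → Q v = q D₀ v := by
      intro v hv
      simp only [hQ, hv, if_false]
    have hfin := hr Q (by
      intro a ha b hb hab
      by_cases h1 : a ∈ D₀.1
      · have h2 : b ∈ D₀.1 ∨ b ∈ C := (hP.closed _ D₀.2 a h1 b hb hab).symm
        rw [hQ1 a (Or.inl h1), hQ1 b h2]
        exact hPm a (Or.inl h1) b h2 hab
      · by_cases h3 : b ∈ D₀.1
        · have h2 : a ∈ D₀.1 ∨ a ∈ C := (hP.closed _ D₀.2 b h3 a ha hab.symm).symm
          rw [hQ1 b (Or.inl h3), hQ1 a h2]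
          exact hPm a h2 b (Or.inl h3) hab
        · rw [hQ2 a h1, hQ2 b h3]
          exact hq1 D₀ a (Finset.mem_sdiff.2 ⟨ha, h1⟩) b (Finset.mem_sdiff.2 ⟨hb, h3⟩) hab)
    rw [hQ2 u (huF D₀.1 D₀.2).1, hQ2 v (huF D₀.1 D₀.2).2] at hfin
    exact hq2 D₀ hfin
  have hcard := hli.fintype_card_le_finrank
  have hfin : Module.finrank ℝ (C → Fin d → ℝ) = C.card * d := by
    rw [Module.finrank_pi_fintype]
    simp
  rw [hfin, Fintype.card_coe, mul_comm] at hcard
  omega

/-- Families of pieces for subgraphs. -/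
theorem Pieces.mono {G H : SimpleGraph V} {W C : Finset V} {F : Finset (Finset V)}
    (h : Pieces G W C F) (hHG : H ≤ G) : Pieces H W C F :=
  ⟨h.ne, h.sub, h.out, h.disj, fun D hD x hx y hy hxy => h.closed D hD x hx y hy (hHG hxy)⟩

/-- A linked pair is linked in a tough part. -/
theorem exists_tough_linked [Fintype V] [DecidableEq V] {d : ℕ} {G : SimpleGraph V}
    {p : V → Fin d → ℝ} {u v : V} (hr : Linked G Finset.univ p u v) :
    ∃ U : Finset V, u ∈ U ∧ v ∈ U ∧ Linked G U p u v ∧
      ∀ C ⊆ U, ∀ F, Pieces G U C F → F.card ≤ d * C.card + 2 := by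
  classical
  obtain ⟨U, hU, hmin⟩ := Finset.exists_min_image
    ((Finset.univ : Finset (Finset V)).filter fun U : Finset V =>
      u ∈ U ∧ v ∈ U ∧ Linked G U p u v)
    (fun U : Finset V => U.card) ⟨Finset.univ, by
      rw [Finset.mem_filter]
      exact ⟨Finset.mem_univ _, Finset.mem_univ _, Finset.mem_univ _, hr⟩⟩
  rw [Finset.mem_filter] at hU
  obtain ⟨-, hu, hv, hUr⟩ := hU
  refine ⟨U, hu, hv, hUr, fun C hC F hF => ?_⟩
  by_contra hcon
  push Not at hcon
  set F' := F.filter fun D => u ∉ D ∧ v ∉ D with hF'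
  have h1 : ∀ w : V, (F.filter fun D => w ∈ D).card ≤ 1 := by
    intro w
    rw [Finset.card_le_one]
    intro D hD D' hD'
    rw [Finset.mem_filter] at hD hD'
    by_contra hne
    exact (Finset.disjoint_left.1 (hF.disj D hD.1 D' hD'.1 hne)) hD.2 hD'.2
  have h2 : F ⊆ F' ∪ ((F.filter fun D => u ∈ D) ∪ (F.filter fun D => v ∈ D)) := by
    intro D hD
    simp only [hF', Finset.mem_union, Finset.mem_filter]
    tauto
  have h3 : F.card ≤ F'.card + 2 := by
    have := Finset.card_le_card h2
    have h4 := Finset.card_union_le F' ((F.filter fun D => u ∈ D) ∪ (F.filter fun D => v ∈ D))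
    have h5 := Finset.card_union_le (F.filter fun D => u ∈ D) (F.filter fun D => v ∈ D)
    have h6 := h1 u
    have h7 := h1 v
    omega
  have hP' : Pieces G U C F' :=
    ⟨fun D hD => hF.ne D (Finset.mem_filter.1 hD).1, fun D hD => hF.sub D (Finset.mem_filter.1 hD).1,
      fun D hD => hF.out D (Finset.mem_filter.1 hD).1,
      fun D hD D' hD' => hF.disj D (Finset.mem_filter.1 hD).1 D' (Finset.mem_filter.1 hD').1,
      fun D hD => hF.closed D (Finset.mem_filter.1 hD).1⟩
  obtain ⟨D, hD, hDr⟩ := delete_linked hP' hC (fun D hD => (Finset.mem_filter.1 hD).2) hUr (by omega)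
  have hDF := Finset.mem_filter.1 hD
  have h8 := hmin (U \ D) (by
    rw [Finset.mem_filter]
    exact ⟨Finset.mem_univ _, Finset.mem_sdiff.2 ⟨hu, hDF.2.1⟩, Finset.mem_sdiff.2 ⟨hv, hDF.2.2⟩,
      hDr⟩)
  have h9 : (U \ D).card < U.card := by
    apply Finset.card_lt_card
    refine ⟨Finset.sdiff_subset, fun hsub => ?_⟩
    obtain ⟨x, hx⟩ := hF.ne D hDF.1
    exact (Finset.mem_sdiff.1 (hsub (hF.sub D hDF.1 hx))).2 hx
  omega

/-- the part of `G` in `U`, as a graph on all the vertices -/
def part (G : SimpleGraph V) (U : Finset V) : SimpleGraph V where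
  Adj a b := G.Adj a b ∧ a ∈ U ∧ b ∈ U
  symm := ⟨fun _ _ h => ⟨h.1.symm, h.2.2, h.2.1⟩⟩
  loopless := ⟨fun a h => G.loopless.irrefl a h.1⟩

theorem part_le (G : SimpleGraph V) (U : Finset V) : part G U ≤ G := fun _ _ h => h.1

theorem part_support (G : SimpleGraph V) (U : Finset V) : (part G U).support ⊆ ↑U := by
  intro a ha
  rw [SimpleGraph.mem_support] at ha
  obtain ⟨b, hb⟩ := ha
  exact_mod_cast hb.2.1

theorem part_support_ncard [Fintype V] (G : SimpleGraph V) (U : Finset V) :
    (part G U).support.ncard ≤ U.card := by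
  have := Set.ncard_le_ncard (part_support G U) (Finset.finite_toSet U)
  rwa [Set.ncard_coe_finset] at this

theorem linked_part [Fintype V] {d : ℕ} {G H : SimpleGraph V} {U : Finset V}
    {p : V → Fin d → ℝ} {u v : V} (h : Linked H U p u v) (hH : part H U ≤ G) :
    Linked G Finset.univ p u v := by
  intro q hq
  exact h q fun a ha b hb hab => hq a (Finset.mem_univ _) b (Finset.mem_univ _)
    (hH (show (part H U).Adj a b from ⟨hab, ha, hb⟩))

end

section rank

variable {V : Type} [Fintype V] {d : ℕ}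

theorem linked_univ {G : SimpleGraph V} {p : V → Fin d → ℝ} {u v : V} :
    Linked G Finset.univ p u v ↔ ∀ q ∈ Mot G p, (p u - p v) ⬝ᵥ (q u - q v) = 0 := by
  constructor
  · intro h q hq
    rw [mem_mot] at hq
    exact h q fun a _ b _ hab => hq a b hab
  · intro h q hq
    exact h q ((mem_mot G p q).2 fun a b hab => hq a (Finset.mem_univ _) b (Finset.mem_univ _) hab)

/-- `u v` is linked if and only if adding the edge does not change the generic rank. -/
theorem linked_iff {G : SimpleGraph V} {p : V → Fin d → ℝ} (hp : MG p) {u v : V} :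
    Linked G Finset.univ p u v ↔ genRank d (G ⊔ SimpleGraph.edge u v) = genRank d G := by
  have h1 := genRank_add hp G
  have h2 := genRank_add hp (G ⊔ SimpleGraph.edge u v)
  have hle : Mot (G ⊔ SimpleGraph.edge u v) p ≤ Mot G p := mot_anti le_sup_left p
  rw [linked_univ]
  constructor
  · intro h
    have heq : Mot (G ⊔ SimpleGraph.edge u v) p = Mot G p := by
      refine le_antisymm hle fun q hq => ?_
      have h3 := h q hq
      rw [mem_mot] at hq ⊢
      intro a b hab
      rw [SimpleGraph.sup_adj, SimpleGraph.edge_adj] at hab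
      rcases hab with hab | ⟨⟨rfl, rfl⟩ | ⟨rfl, rfl⟩, -⟩
      · exact hq a b hab
      · exact h3
      · rw [← neg_sub (p b), ← neg_sub (q b), neg_dotProduct_neg]
        exact h3
    have : mo (G ⊔ SimpleGraph.edge u v) p = mo G p := by
      unfold mo
      rw [heq]
    omega
  · intro h q hq
    have hmo : mo (G ⊔ SimpleGraph.edge u v) p = mo G p := by omega
    have heq : Mot (G ⊔ SimpleGraph.edge u v) p = Mot G p :=
      Submodule.eq_of_le_of_finrank_eq hle hmo
    rw [← heq, mem_mot] at hq
    by_cases huv : u = v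
    · subst huv
      simp
    · refine hq u v ?_
      rw [SimpleGraph.sup_adj, SimpleGraph.edge_adj]
      exact Or.inr ⟨Or.inl ⟨rfl, rfl⟩, huv⟩

/-- `G` is independent in the generic rigidity matroid in `ℝ^d`. -/
def Indep (d : ℕ) (G : SimpleGraph V) : Prop := genRank d G = G.edgeSet.ncard

/-- `G` is a circuit of the generic rigidity matroid in `ℝ^d`. -/
def Circuit (d : ℕ) (G : SimpleGraph V) : Prop := ¬ Indep d G ∧ ∀ H < G, Indep d H

theorem genRank_le {p : V → Fin d → ℝ} (hp : MG p) (G : SimpleGraph V) :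
    genRank d G ≤ G.edgeSet.ncard := by
  have h1 := genRank_add hp G
  have h2 := mo_le_add (G := (⊥ : SimpleGraph V)) (G' := G) p
  have h3 : mo (⊥ : SimpleGraph V) p = d * Fintype.card V := by
    unfold mo
    have : Mot (⊥ : SimpleGraph V) p = ⊤ := by
      rw [eq_top_iff]
      intro q _
      rw [mem_mot]
      intro a b hab
      exact absurd hab (by simp)
    rw [this, finrank_top, finrank_all]
  rw [SimpleGraph.edgeSet_bot, Set.sdiff_empty] at h2
  omega

/-- If no edge is linked by the others then the graph is independent. -/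
theorem indep_of {p : V → Fin d → ℝ} (hp : MG p) : ∀ (n : ℕ) (G : SimpleGraph V),
    G.edgeSet.ncard = n →
    (∀ u v, G.Adj u v → ¬ Linked (G.deleteEdges {s(u, v)}) Finset.univ p u v) → Indep d G := by
  intro n
  induction n with
  | zero =>
    intro G hG _
    have := genRank_le hp G
    unfold Indep
    omega
  | succ n ih =>
    intro G hG h
    have hne : G.edgeSet.Nonempty := by
      rw [← Set.ncard_pos]
      omega
    obtain ⟨e, he⟩ := hne
    induction e using Sym2.ind with
    | _ u v =>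
      have huv : G.Adj u v := he
      set G' := G.deleteEdges {s(u, v)} with hG'
      have hle : G' ≤ G := SimpleGraph.deleteEdges_le _
      have hcard : G'.edgeSet.ncard = n := by
        rw [hG', SimpleGraph.edgeSet_deleteEdges, Set.ncard_sdiff_singleton_of_mem he]
        omega
      have hI := ih G' hcard (by
        intro a b hab hl
        refine h a b (hle hab) ?_
        intro q hq
        refine hl q fun x hx y hy hxy => hq x hx y hy ?_
        rw [SimpleGraph.deleteEdges_adj] at hxy ⊢
        exact ⟨hle hxy.1, hxy.2⟩)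
      have h1 := genRank_add hp G
      have h2 := genRank_add hp G'
      have h3 : mo G p < mo G' p := by
        refine Submodule.finrank_lt_finrank_of_lt (lt_of_le_of_ne (mot_anti hle p) fun heq => ?_)
        refine h u v huv ?_
        rw [linked_univ]
        intro q hq
        rw [← hG', ← heq, mem_mot] at hq
        exact hq u v huv
      have h4 := genRank_le hp G
      unfold Indep at hI ⊢
      omega

/-- A graph in which an edge is linked by the others is dependent. -/
theorem not_indep_of_linked {p : V → Fin d → ℝ} (hp : MG p) {G : SimpleGraph V} {u v : V}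
    (huv : G.Adj u v) (hl : Linked (G.deleteEdges {s(u, v)}) Finset.univ p u v) :
    ¬ Indep d G := by
  set G' := G.deleteEdges {s(u, v)} with hG'
  have hle : G' ≤ G := SimpleGraph.deleteEdges_le _
  have he : s(u, v) ∈ G.edgeSet := huv
  have hcard : G'.edgeSet.ncard + 1 = G.edgeSet.ncard := by
    rw [hG', SimpleGraph.edgeSet_deleteEdges]
    exact Set.ncard_sdiff_singleton_add_one he
  have heq : Mot G p = Mot G' p := by
    refine le_antisymm (mot_anti hle p) fun q hq => ?_
    have h3 := (linked_univ.1 hl) q hq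
    rw [mem_mot] at hq ⊢
    intro a b hab
    by_cases hs : s(a, b) = s(u, v)
    · rw [Sym2.eq_iff] at hs
      rcases hs with ⟨rfl, rfl⟩ | ⟨rfl, rfl⟩
      · exact h3
      · rw [← neg_sub (p b), ← neg_sub (q b), neg_dotProduct_neg]
        exact h3
    · refine hq a b ?_
      rw [hG', SimpleGraph.deleteEdges_adj]
      exact ⟨hab, by simpa using hs⟩
  have hmo : mo G p = mo G' p := by
    unfold mo
    rw [heq]
  have h1 := genRank_add hp G
  have h2 := genRank_add hp G'
  have h4 := genRank_le hp G'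
  unfold Indep
  omega

/-- A dependent graph has an edge which is linked by the others. -/
theorem exists_linked {p : V → Fin d → ℝ} (hp : MG p) {G : SimpleGraph V} (h : ¬ Indep d G) :
    ∃ u v, G.Adj u v ∧ Linked (G.deleteEdges {s(u, v)}) Finset.univ p u v := by
  by_contra hcon
  push Not at hcon
  exact h (indep_of hp _ G rfl hcon)

/-- lists of vertices which are paths of a subgraph -/
theorem path_mono {G H : SimpleGraph V} {m : ℕ} (hHG : H ≤ G)
    (hpath : ∀ l : List V, l.Nodup → l.IsChain G.Adj → l.length < m) :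
    ∀ l : List V, l.Nodup → l.IsChain H.Adj → l.length < m :=
  fun l hl hc => hpath l hl (hc.imp fun _ _ h => hHG h)

/-- Closure is local. -/
theorem closure_local {m : ℕ} {G : SimpleGraph V}
    (hpath : ∀ l : List V, l.Nodup → l.IsChain G.Adj → l.length < m) (u v : V) :
    genRank d (G ⊔ SimpleGraph.edge u v) = genRank d G ↔
      ∃ H ≤ G, H.support.ncard ≤ (d * m + 2) ^ m ∧
        genRank d (H ⊔ SimpleGraph.edge u v) = genRank d H := by
  classical
  obtain ⟨p, hp⟩ := exists_mg V d
  rw [← linked_iff hp]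
  constructor
  · intro h
    obtain ⟨U, -, -, hU, hW⟩ := exists_tough_linked h
    refine ⟨part G U, part_le G U, (part_support_ncard G U).trans (card_le_of_tough hW hpath), ?_⟩
    rw [← linked_iff hp]
    exact linked_part hU le_rfl
  · rintro ⟨H, hH, -, h⟩
    rw [← linked_iff hp] at h
    intro q hq
    exact h q fun a ha b hb hab => hq a ha b hb (hH hab)

/-- A dependent graph without a path on `m` vertices contains a small dependent graph. -/
theorem exists_small_dependent {m : ℕ} {G : SimpleGraph V}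
    (hpath : ∀ l : List V, l.Nodup → l.IsChain G.Adj → l.length < m) (h : ¬ Indep d G) :
    ∃ H ≤ G, H.support.ncard ≤ (d * m + 2) ^ m ∧ ¬ Indep d H := by
  classical
  obtain ⟨p, hp⟩ := exists_mg V d
  obtain ⟨u, v, huv, hl⟩ := exists_linked hp h
  obtain ⟨U, hu, hv, hU, hW⟩ := exists_tough_linked hl
  have hle : G.deleteEdges {s(u, v)} ≤ G := SimpleGraph.deleteEdges_le _
  refine ⟨part G U, part_le G U,
    (part_support_ncard G U).trans (card_le_of_tough hW (path_mono hle hpath)), ?_⟩
  refine not_indep_of_linked hp (u := u) (v := v) ⟨huv, hu, hv⟩ (linked_part hU ?_)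
  intro a b hab
  have hab' : (G.deleteEdges {s(u, v)}).Adj a b := hab.1
  rw [SimpleGraph.deleteEdges_adj] at hab' ⊢
  exact ⟨⟨hab'.1, hab.2⟩, hab'.2⟩

theorem indep_mono {G H : SimpleGraph V} (h : Indep d G) (hHG : H ≤ G) : Indep d H := by
  obtain ⟨p, hp⟩ := exists_mg V d
  by_contra hH
  obtain ⟨u, v, huv, hl⟩ := exists_linked hp hH
  refine not_indep_of_linked hp (hHG huv) ?_ h
  intro q hq
  refine hl q fun a ha b hb hab => hq a ha b hb ?_
  rw [SimpleGraph.deleteEdges_adj] at hab ⊢
  exact ⟨hHG hab.1, hab.2⟩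

/-- Independence is local. -/
theorem indep_local {m : ℕ} {G : SimpleGraph V}
    (hpath : ∀ l : List V, l.Nodup → l.IsChain G.Adj → l.length < m) :
    Indep d G ↔ ∀ H ≤ G, H.support.ncard ≤ (d * m + 2) ^ m → Indep d H := by
  constructor
  · intro h H hH _
    exact indep_mono h hH
  · intro h
    by_contra hG
    obtain ⟨H, hH, hc, hn⟩ := exists_small_dependent hpath hG
    exact hn (h H hH hc)

/-- Circuits without long paths are small. -/
theorem circuit_small {m : ℕ} {G : SimpleGraph V}
    (hpath : ∀ l : List V, l.Nodup → l.IsChain G.Adj → l.length < m) (h : Circuit d G) :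
    G.support.ncard ≤ (d * m + 2) ^ m := by
  obtain ⟨H, hH, hc, hn⟩ := exists_small_dependent hpath h.1
  rcases hH.lt_or_eq with hlt | heq
  · exact absurd (h.2 H hlt) hn
  · rwa [← heq]

/-- Circuits are tough. -/
theorem circuit_tough [DecidableEq V] {G : SimpleGraph V} (h : Circuit d G)
    (hs : G.support = Set.univ) (C : Finset V) :
    Nat.card (G.induce (↑(Finset.univ \ C) : Set V)).ConnectedComponent ≤ d * C.card + 1 := by
  obtain ⟨p, hp⟩ := exists_mg V d
  obtain ⟨u, v, huv, hl⟩ := exists_linked hp h.1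
  refine comp_card_le fun F hF => ?_
  by_contra hcon
  push Not at hcon
  set F' := F.filter fun D => u ∉ D ∧ v ∉ D with hF'
  have h1 : (F.filter fun D => u ∈ D ∨ v ∈ D).card ≤ 1 := by
    rw [Finset.card_le_one]
    intro D hD D' hD'
    rw [Finset.mem_filter] at hD hD'
    by_contra hne
    have hdis := Finset.disjoint_left.1 (hF.disj D hD.1 D' hD'.1 hne)
    have key : ∀ {E E' : Finset V}, E ∈ F → E' ∈ F → E ≠ E' → u ∈ E → v ∈ E' → False := by
      intro E E' hE hE' hEE hu hv
      rcases hF.closed E hE u hu v (Finset.mem_univ _) huv with hvC | hvE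
      · exact (Finset.disjoint_left.1 (hF.out E' hE')) hv hvC
      · exact (Finset.disjoint_left.1 (hF.disj E hE E' hE' hEE)) hvE hv
    rcases hD.2 with h2 | h2 <;> rcases hD'.2 with h3 | h3
    · exact hdis h2 h3
    · exact key hD.1 hD'.1 hne h2 h3
    · exact key hD'.1 hD.1 (Ne.symm hne) h3 h2
    · exact hdis h2 h3
  have h2 : F ⊆ F' ∪ (F.filter fun D => u ∈ D ∨ v ∈ D) := by
    intro D hD
    simp only [hF', Finset.mem_union, Finset.mem_filter]
    tauto
  have h3 : F.card ≤ F'.card + 1 := by
    have := Finset.card_le_card h2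
    have h4 := Finset.card_union_le F' (F.filter fun D => u ∈ D ∨ v ∈ D)
    omega
  have hle : G.deleteEdges {s(u, v)} ≤ G := SimpleGraph.deleteEdges_le _
  have hP' : Pieces (G.deleteEdges {s(u, v)}) Finset.univ C F' :=
    Pieces.mono ⟨fun D hD => hF.ne D (Finset.mem_filter.1 hD).1,
      fun D hD => hF.sub D (Finset.mem_filter.1 hD).1,
      fun D hD => hF.out D (Finset.mem_filter.1 hD).1,
      fun D hD D' hD' => hF.disj D (Finset.mem_filter.1 hD).1 D' (Finset.mem_filter.1 hD').1,
      fun D hD => hF.closed D (Finset.mem_filter.1 hD).1⟩ hle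
  obtain ⟨D, hD, hDr⟩ := delete_linked hP' (Finset.subset_univ C)
    (fun D hD => (Finset.mem_filter.1 hD).2) hl (by omega)
  have hDF := Finset.mem_filter.1 hD
  have hdep : ¬ Indep d (part G (Finset.univ \ D)) := by
    refine not_indep_of_linked hp (u := u) (v := v)
      ⟨huv, Finset.mem_sdiff.2 ⟨Finset.mem_univ _, hDF.2.1⟩,
        Finset.mem_sdiff.2 ⟨Finset.mem_univ _, hDF.2.2⟩⟩ (linked_part hDr ?_)
    intro a b hab
    have hab' : (G.deleteEdges {s(u, v)}).Adj a b := hab.1
    rw [SimpleGraph.deleteEdges_adj] at hab' ⊢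
    exact ⟨⟨hab'.1, hab.2⟩, hab'.2⟩
  refine hdep (h.2 _ (lt_of_le_of_ne (part_le _ _) fun heq => ?_))
  obtain ⟨x, hx⟩ := hF.ne D hDF.1
  have hxs : x ∈ G.support := by rw [hs]; trivial
  rw [SimpleGraph.mem_support] at hxs
  obtain ⟨y, hxy⟩ := hxs
  rw [← heq] at hxy
  exact (Finset.mem_sdiff.1 hxy.2.1).2 hx

end rank

end Run7.h933.RP
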